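import Pool.Agent.H73.P4.RS
import Pool.Agent.H31.Q.Defs

set_option autoImplicit false

/-!
The side interface for the minors at a root from the sides of the words of the code
(MP_a46c6f_co, full Q1).
-/

namespace Pool.Agent.H73.P4

open Finset Pool.Agent.H98.Code Pool.Agent.H26.TR Pool.Agent.H45.TR Pool.Agent.H77.Q

variable {V : Type} [Fintype V] [DecidableEq V]

theorem lsides_of_sides {L : Submodule (ZMod 2) (V → K)} {S : (V → K) → Finset V → Prop}
    (hS : Pool.Agent.H31.Q.Sides L S) : LSides L S := by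
  refine ⟨?_, ?_, ?_, ?_, ?_⟩
  · intro u Y h
    exact (hS.mem u Y h).2
  · intro u hu _ _ e he
    obtain ⟨Y, hY⟩ := hS.ex u hu
    by_cases heY : e ∈ Y
    · obtain ⟨Y', hY', h1⟩ := hS.compl u Y hY
      exact ⟨Y', hY', fun h2 => ((h1 e).1 h2).2 heY⟩
    · exact ⟨Y, hY, heY⟩
  · intro u _ hz h0 hY
    exact hS.wc u hY hz h0
  · intro u Y hY k hk hle
    obtain ⟨k', h1, h2, h3, h4, _⟩ := hS.part u Y hY k hk hle
    exact ⟨k', h1, h2, h3, h4⟩
  · intro u Y hY hI k hk _ _ h1 h2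
    obtain ⟨Y', h3, h4⟩ := hS.mono hY hI hk h1 h2
    exact ⟨Y', h3, h4⟩

/-- **row (C)** from helper31's interface -/
theorem rsides' {L : Submodule (ZMod 2) (V → K)} {e : V} {D : V → K} {P Q : Finset (Finset V)}
    {h : Finset V → V} (hL : IsCode L) (hP : Parts L e D P) (hQ : Q ⊆ P)
    (hl : ∀ v, v ≠ e → (D v).1 = 1) (hh : ∀ M ∈ Q, h M ∈ M) (heW : ∀ M ∈ Q, e ∉ M)
    {S : (V → K) → Finset V → Prop} (hS : Pool.Agent.H31.Q.Sides L S) :
    RSides (N L D Q h) (⟨e, heW⟩ : W Q) (SB L D Q h e S) :=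
  rsides hL hP hQ hl hh heW (lsides_of_sides hS)

end Pool.Agent.H73.P4
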