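import Mathlib
import Pool.Agent.H17.TR.KThree

set_option autoImplicit false

/-!
The dictionary of the rooted tree theorem (MP_a46c6f_co, target (C), note 7046): the inverse of the
reduced Laplacian of the graph of a code.
-/

namespace Pool.Agent.H73.P4

open Pool.Agent.H98.Code Pool.Agent.H17.TR

section
variable {V : Type} [Fintype V]

/-- the Laplacian mod 2 -/
def lap (H : V → V → ZMod 2) (x : V → ZMod 2) (v : V) : ZMod 2 := ∑ w, H v w * (x w + x v)

theorem lap_add (H : V → V → ZMod 2) (x y : V → ZMod 2) (v : V) :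
    lap H (x + y) v = lap H x v + lap H y v := by
  unfold lap
  rw [← Finset.sum_add_distrib]
  refine Finset.sum_congr rfl fun w _ => ?_
  simp only [Pi.add_apply]
  ring

theorem lap_smul (H : V → V → ZMod 2) (c : ZMod 2) (x : V → ZMod 2) (v : V) :
    lap H (c • x) v = c * lap H x v := by
  unfold lap
  rw [Finset.mul_sum]
  refine Finset.sum_congr rfl fun w _ => ?_
  simp only [Pi.smul_apply, smul_eq_mul]
  ring

theorem two_zero (a : ZMod 2) : a + a = 0 := by
  revert a
  decide

theorem lap_symm {H : V → V → ZMod 2} (hs : ∀ u v, H u v = H v u) (x y : V → ZMod 2) :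
    ∑ v, y v * lap H x v = ∑ v, x v * lap H y v := by
  have h1 : ∀ a b : V → ZMod 2, ∑ v, b v * lap H a v
      = (∑ v, ∑ w, H v w * (b v * a w)) + ∑ v, ∑ w, H v w * (a v * b v) := by
    intro a b
    rw [← Finset.sum_add_distrib]
    refine Finset.sum_congr rfl fun v _ => ?_
    unfold lap
    rw [Finset.mul_sum, ← Finset.sum_add_distrib]
    refine Finset.sum_congr rfl fun w _ => ?_
    ring
  rw [h1 x y, h1 y x]
  congr 1
  · rw [Finset.sum_comm]
    refine Finset.sum_congr rfl fun v _ => Finset.sum_congr rfl fun w _ => ?_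
    rw [hs w v]
    ring
  · refine Finset.sum_congr rfl fun v _ => Finset.sum_congr rfl fun w _ => ?_
    ring

theorem lap_one (H : V → V → ZMod 2) (v : V) : lap H (fun _ => 1) v = 0 := by
  unfold lap
  refine Finset.sum_eq_zero fun w _ => ?_
  have : (1 : ZMod 2) + 1 = 0 := by decide
  rw [this, mul_zero]

theorem lap_sum {H : V → V → ZMod 2} (hs : ∀ u v, H u v = H v u) (x : V → ZMod 2) :
    ∑ v, lap H x v = 0 := by
  have h := lap_symm hs x (fun _ => 1)
  simp only [one_mul, lap_one, mul_zero, Finset.sum_const_zero] at h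
  exact h

/-- the word of `L` with the given first coordinates -/
def wd (H : V → V → ZMod 2) (x : V → ZMod 2) : V → K := fun v => (x v, ∑ w, H v w * x w)

theorem wd_mem {L : Submodule (ZMod 2) (V → K)} {H : V → V → ZMod 2} (hH : IsMat L H)
    (x : V → ZMod 2) : wd H x ∈ L := by
  rw [hH.mem]
  intro v
  rfl

/-- the sum of all rows -/
def om (H : V → V → ZMod 2) : V → K := wd H (fun _ => 1)

theorem om_fst (H : V → V → ZMod 2) (v : V) : (om H v).1 = 1 := rfl

theorem kf_om {L : Submodule (ZMod 2) (V → K)} {H : V → V → ZMod 2} (hH : IsMat L H)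
    {u : V → K} (hu : u ∈ L) (v : V) : kf (u v) (om H v) = lap H (fun w => (u w).1) v := by
  have h2 := (hH.mem u).1 hu v
  unfold kf lap om wd
  rw [h2]
  simp only [mul_one]
  rw [Finset.mul_sum, ← Finset.sum_add_distrib]
  refine Finset.sum_congr rfl fun w _ => ?_
  ring

theorem kf_z_om (H : V → V → ZMod 2) (v : V) : kf z (om H v) = 1 := by
  rw [kf_z_left, om_fst]

theorem ne_zero_one (a : ZMod 2) (h : a ≠ 0) : a = 1 := by
  revert a
  decide

end

section
variable {V : Type} [Fintype V] [DecidableEq V]
variable {L : Submodule (ZMod 2) (V → K)} {H : V → V → ZMod 2} {e : V}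

/-- the reduced Laplacian is injective -/
theorem inj_aux (hL : IsCode L) (hc : CritAt L e) (hH : IsMat L H) (x : V → ZMod 2) (hx : x e = 0)
    (h : ∀ v, v ≠ e → lap H x v = 0) : x = 0 := by
  have he : lap H x e = 0 := by
    have h1 := lap_sum hH.sym x
    rw [Finset.sum_eq_single e] at h1
    · exact h1
    · intro v _ hv
      exact h v hv
    · intro h2
      exact absurd (Finset.mem_univ e) h2
  have hall : ∀ v, lap H x v = 0 := by
    intro v
    by_cases hv : v = e
    · rw [hv]
      exact he
    · exact h v hv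
  by_contra hne
  have hu := wd_mem hH x
  have hk : ∀ v, kf (wd H x v) (om H v) = 0 := by
    intro v
    rw [kf_om hH hu]
    exact hall v
  have hue : wd H x e = 0 := by
    have h1 := hk e
    have h2 : (wd H x e).1 = 0 := hx
    rw [kf, h2, om_fst] at h1
    apply Prod.ext
    · exact h2
    · simpa using h1
  have hzf : ZFree (wd H x) := by
    intro v hv
    have h1 := hk v
    rw [hv, kf_z_om] at h1
    exact absurd h1 (by decide)
  have hu0 : wd H x ≠ 0 := by
    intro h0
    apply hne
    funext v
    have := congrArg Prod.fst (congrFun h0 v)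
    exact this
  obtain ⟨g, c₁, h1, c₂, h2, hsum, hg1, hg2, hdis⟩ := hc _ hu hu0 hzf hue
  have hf := hL.iso c₁ h1 (om H) (wd_mem hH _)
  unfold form at hf
  rw [Finset.sum_eq_single g] at hf
  · rw [hg1, kf_z_om] at hf
    exact absurd hf (by decide)
  · intro v _ hv
    rcases hdis v hv with h3 | h3
    · rw [h3, kf_zero_left]
    · have h4 : c₁ v = wd H x v := by
        rw [← hsum, Pi.add_apply, h3, add_zero]
      rw [h4]
      exact hk v
  · intro h3
    exact absurd (Finset.mem_univ g) h3

/-- the reduced Laplacian as an endomorphism -/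
def Phi (H : V → V → ZMod 2) (e : V) : (V → ZMod 2) →ₗ[ZMod 2] (V → ZMod 2) where
  toFun x := fun v => if v = e then x e else lap H x v
  map_add' x y := by
    funext v
    by_cases hv : v = e
    · simp [hv]
    · simp [hv, lap_add]
  map_smul' c x := by
    funext v
    by_cases hv : v = e
    · simp [hv]
    · simp [hv, lap_smul]

theorem Phi_e (x : V → ZMod 2) : Phi H e x e = x e := by
  simp [Phi]

theorem Phi_ne (x : V → ZMod 2) {v : V} (hv : v ≠ e) : Phi H e x v = lap H x v := by
  simp [Phi, hv]

theorem Phi_inj (hL : IsCode L) (hc : CritAt L e) (hH : IsMat L H) :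
    Function.Injective (Phi H e) := by
  rw [injective_iff_map_eq_zero]
  intro x hx
  apply inj_aux hL hc hH x
  · rw [← Phi_e (H := H) (e := e) x, hx]
    rfl
  · intro v hv
    rw [← Phi_ne (H := H) (e := e) x hv, hx]
    rfl

theorem exists_mu (hL : IsCode L) (hc : CritAt L e) (hH : IsMat L H) :
    ∃ μ : V → V → ZMod 2, (∀ y, μ e y = 0) ∧ (∀ x, μ x e = 0) ∧
      (∀ x, x ≠ e → ∀ v, v ≠ e → lap H (μ x) v = if v = x then 1 else 0) ∧
      (∀ x y, μ x y = μ y x) := by
  have hsurj : Function.Surjective (Phi H e) :=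
    LinearMap.injective_iff_surjective.1 (Phi_inj hL hc hH)
  choose m hm using fun x : V => hsurj (Pi.single x 1)
  have hme : ∀ x, x ≠ e → m x e = 0 := by
    intro x hx
    rw [← Phi_e (H := H) (e := e) (m x), hm x, Pi.single_eq_of_ne (Ne.symm hx)]
  have hml : ∀ x, ∀ v, v ≠ e → lap H (m x) v = if v = x then 1 else 0 := by
    intro x v hv
    rw [← Phi_ne (H := H) (e := e) (m x) hv, hm x]
    by_cases h : v = x
    · rw [h, Pi.single_eq_same, if_pos rfl]
    · rw [Pi.single_eq_of_ne h, if_neg h]
  have hsym : ∀ x y, x ≠ e → y ≠ e → m x y = m y x := by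
    intro x y hx hy
    have key : ∀ x y, x ≠ e → y ≠ e → ∑ v, m x v * lap H (m y) v = m x y := by
      intro x y hx hy
      rw [Finset.sum_eq_single y]
      · rw [hml y y hy, if_pos rfl, mul_one]
      · intro v _ hv
        by_cases hve : v = e
        · rw [hve, hme x hx, zero_mul]
        · rw [hml y v hve, if_neg hv, mul_zero]
      · intro h
        exact absurd (Finset.mem_univ y) h
    rw [← key x y hx hy, ← key y x hy hx]
    exact lap_symm hH.sym _ _
  refine ⟨fun x y => if x = e then 0 else m x y, ?_, ?_, ?_, ?_⟩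
  · intro y
    simp
  · intro x
    by_cases hx : x = e
    · simp [hx]
    · simp [hx, hme x hx]
  · intro x hx v hv
    have : (fun y => if x = e then 0 else m x y) = m x := by
      funext y
      rw [if_neg hx]
    simp only [this]
    exact hml x v hv
  · intro x y
    by_cases hx : x = e
    · by_cases hy : y = e
      · simp [hx, hy]
      · simp [hx, hy, hme y hy]
    · by_cases hy : y = e
      · simp [hx, hy, hme x hx]
      · simp [hx, hy, hsym x y hx hy]

end

end Pool.Agent.H73.P4
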