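import Mathlib
import Pool.Agent.H73.P4.Side

set_option autoImplicit false

/-!
The code side of the rooted tree theorem (MP_a46c6f_co, target (C), note 7046), final form.
-/

namespace Pool.Agent.H73.P4

open Pool.Agent.H98.Code Pool.Agent.H17.TR Pool.Agent.H17.P3 Finset

section
variable {V : Type} [Fintype V] [DecidableEq V]
variable {L : Submodule (ZMod 2) (V → K)} {H : V → V → ZMod 2} {e : V}

theorem sum_four (f : V → ZMod 2) {a b c d : V} (h1 : a ≠ b) (h2 : a ≠ c) (h3 : a ≠ d)
    (h4 : b ≠ c) (h5 : b ≠ d) (h6 : c ≠ d) :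
    ∑ s ∈ ({a, b, c, d} : Finset V), f s = f a + f b + f c + f d := by
  rw [Finset.sum_insert (by simp [h1, h2, h3]), Finset.sum_insert (by simp [h4, h5]),
    Finset.sum_insert (by simp [h6]), Finset.sum_singleton]
  ring

theorem pairs_mu (hL : IsCode L) (hc : CritAt L e) (hH : IsMat L H) {μ : V → V → ZMod 2}
    (hμ : IsInv H e μ) : Pairs μ := by
  intro u v h1 h2
  have hue : u ≠ e := by
    rintro rfl
    apply h2
    rw [hμ.row, hμ.row]
  have hve : v ≠ e := by
    rintro rfl
    apply h2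
    rw [h1, hμ.col, hμ.row]
  have huv : u ≠ v := by
    rintro rfl
    exact h2 rfl
  have heT : e ∉ ({u, v} : Finset V) := by
    simp [Ne.symm hue, Ne.symm hve]
  have hS : ∀ w, ∑ s ∈ ({u, v} : Finset V), μ s w = μ u w + μ v w := by
    intro w
    rw [Finset.sum_pair huv]
  have hX : ∀ t ∈ ({u, v} : Finset V), ∑ s ∈ ({u, v} : Finset V), μ s t = 1 := by
    intro t ht
    rw [hS]
    have hx : ∀ a b c : ZMod 2, a = c → b ≠ a → a + b = 1 ∧ b + c = 1 := by decide
    have h3 := hx (μ u u) (μ u v) (μ v v) h1 h2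
    rw [Finset.mem_insert, Finset.mem_singleton] at ht
    rcases ht with rfl | rfl
    · rw [hμ.sym v t]
      exact h3.1
    · exact h3.2
  obtain ⟨g, t, ht, k1, k2, k3, k4⟩ := key hL hc hH hμ heT (Or.inl (Finset.card_pair huv)) hX
  refine ⟨g, ?_⟩
  rw [Finset.mem_insert, Finset.mem_singleton] at ht
  have hx : ∀ p q : ZMod 2, q ≠ p → p + 1 = q ∧ p + 1 ≠ p := by decide
  have h3 := hx (μ u u) (μ u v) h2
  rcases ht with rfl | rfl
  · have e1 : μ g v = μ t v := k2 v (by simp) (Ne.symm huv)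
    have e2 : μ g g = μ t t + 1 := by rw [k4, hμ.sym t g, k3]
    refine ⟨by rw [e2]; exact h3.2, by rw [e2, k3], by rw [e1, e2, h3.1], ?_⟩
    intro x hx'
    exact k1 x (by rw [hS, hx', two_zero])
  · have e1 : μ g u = μ t u := k2 u (by simp) huv
    have e2 : μ g g = μ t t + 1 := by rw [k4, hμ.sym t g, k3]
    have e3 : μ g g = μ u u + 1 := by rw [e2, h1]
    refine ⟨by rw [e3]; exact h3.2, by rw [e3, e1, hμ.sym t u, h3.1], by rw [e2, k3], ?_⟩
    intro x hx'
    rw [k1 x (by rw [hS, hx', two_zero]), hx']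

theorem p4split_mu (hL : IsCode L) (hc : CritAt L e) (hH : IsMat L H) {μ : V → V → ZMod 2}
    (hμ : IsInv H e μ) : P4Split μ := by
  intro a b c d hP ha hb hcc hd
  have n01 : (0 : ZMod 2) ≠ 1 := by decide
  have hab : a ≠ b := by
    rintro rfl
    rw [ha] at hb
    exact n01 hb
  have hac : a ≠ c := by
    rintro rfl
    rw [ha] at hcc
    exact n01 hcc
  have had : a ≠ d := by
    rintro rfl
    have := hP.cd
    rw [hμ.sym, hP.ac] at this
    exact n01 this
  have hbc : b ≠ c := by
    rintro rfl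
    have := hP.ab
    rw [hP.ac] at this
    exact n01 this
  have hbd : b ≠ d := by
    rintro rfl
    rw [hd] at hb
    exact n01 hb
  have hcd : c ≠ d := by
    rintro rfl
    rw [hd] at hcc
    exact n01 hcc
  have hae : a ≠ e := by
    rintro rfl
    have := hP.ab
    rw [hμ.row] at this
    exact n01 this
  have hbe : b ≠ e := by
    rintro rfl
    have := hP.bc
    rw [hμ.row] at this
    exact n01 this
  have hce : c ≠ e := by
    rintro rfl
    have := hP.cd
    rw [hμ.row] at this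
    exact n01 this
  have hde : d ≠ e := by
    rintro rfl
    have := hP.cd
    rw [hμ.col] at this
    exact n01 this
  have heT : e ∉ ({a, b, c, d} : Finset V) := by
    simp [Ne.symm hae, Ne.symm hbe, Ne.symm hce, Ne.symm hde]
  have hS : ∀ w, ∑ s ∈ ({a, b, c, d} : Finset V), μ s w = μ a w + μ b w + μ c w + μ d w := by
    intro w
    exact sum_four (fun s => μ s w) hab hac had hbc hbd hcd
  have hcard : ({a, b, c, d} : Finset V).card = 4 := by
    rw [Finset.card_insert_of_notMem (by simp [hab, hac, had]),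
      Finset.card_insert_of_notMem (by simp [hbc, hbd]), Finset.card_pair hcd]
  have ba : μ b a = 1 := by rw [hμ.sym]; exact hP.ab
  have cb : μ c b = 1 := by rw [hμ.sym]; exact hP.bc
  have dc : μ d c = 1 := by rw [hμ.sym]; exact hP.cd
  have ca : μ c a = 0 := by rw [hμ.sym]; exact hP.ac
  have da : μ d a = 0 := by rw [hμ.sym]; exact hP.ad
  have db : μ d b = 0 := by rw [hμ.sym]; exact hP.bd
  have hX : ∀ t ∈ ({a, b, c, d} : Finset V), ∑ s ∈ ({a, b, c, d} : Finset V), μ s t = 1 := by
    intro t ht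
    rw [hS]
    simp only [Finset.mem_insert, Finset.mem_singleton] at ht
    rcases ht with rfl | rfl | rfl | rfl
    · rw [ha, ba, ca, da]; decide
    · rw [hP.ab, hb, cb, db]; decide
    · rw [hP.ac, hP.bc, hcc, dc]; decide
    · rw [hP.ad, hP.bd, hP.cd, hd]; decide
  obtain ⟨g, t, ht, k1, k2, k3, k4⟩ := key hL hc hH hμ heT (Or.inr hcard) hX
  refine ⟨g, ?_, ?_⟩
  · simp only [Finset.mem_insert, Finset.mem_singleton] at ht
    unfold Bad
    rcases ht with rfl | rfl | rfl | rfl
    · rw [k3, k2 b (by simp) (Ne.symm hab), k2 c (by simp) (Ne.symm hac),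
        k2 d (by simp) (Ne.symm had), ha, hP.ab, hP.ac, hP.ad]
      decide
    · rw [k3, k2 a (by simp) hab, k2 c (by simp) (Ne.symm hbc),
        k2 d (by simp) (Ne.symm hbd), ba, hb, hP.bc, hP.bd]
      decide
    · rw [k3, k2 a (by simp) hac, k2 b (by simp) hbc,
        k2 d (by simp) (Ne.symm hcd), ca, cb, hcc, hP.cd]
      decide
    · rw [k3, k2 a (by simp) had, k2 b (by simp) hbd,
        k2 c (by simp) hcd, da, db, dc, hd]
      decide
  · intro y h1 h2 h3
    have h4 : ∑ s ∈ ({a, b, c, d} : Finset V), μ s y = 0 := by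
      rw [hS, ← h1, ← h2, ← h3, two_zero, zero_add, two_zero]
    rw [k1 y h4]
    simp only [Finset.mem_insert, Finset.mem_singleton] at ht
    rcases ht with rfl | rfl | rfl | rfl
    · rfl
    · exact h1.symm
    · exact h2.symm
    · exact h3.symm

/-- **the code side** -/
theorem code_side {V : Type} [Fintype V] [DecidableEq V] {L : Submodule (ZMod 2) (V → K)} {e : V}
    {H : V → V → ZMod 2} (hL : IsCode L) (hc : CritAt L e) (hH : IsMat L H) :
    ∃ M : V → V → ZMod 2, (∀ x y, M x y = M y x) ∧ (∀ x, M e x = 0) ∧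
      (∀ u, u ≠ e → ∀ v, (∑ w, H u w * (M u v + M w v)) = if u = v then 1 else 0) ∧
      Pairs M ∧ P4Split M := by
  obtain ⟨μ, h1, h2, h3, h4⟩ := exists_mu hL hc hH
  have hμ : IsInv H e μ := ⟨h1, h2, h3, h4⟩
  refine ⟨μ, h4, h1, ?_, pairs_mu hL hc hH hμ, p4split_mu hL hc hH hμ⟩
  intro u hu v
  by_cases hv : v = e
  · rw [hv, if_neg hu]
    refine Finset.sum_eq_zero fun w _ => ?_
    rw [h2, h2, add_zero, mul_zero]
  · have h5 := h3 v hv u hu
    unfold lap at h5
    rw [← h5]
    refine Finset.sum_congr rfl fun w _ => ?_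
    rw [h4 u v, h4 w v]
    ring

end

end Pool.Agent.H73.P4
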