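import Pool.Agent.H17.P3.Glue
import Pool.Agent.H17.P3.TreeEnd
import Pool.Agent.H44.P4.Main
import Pool.Agent.H73.P4.Code

set_option autoImplicit false

/-!
The rooted tree theorem for codes (MP_a46c6f_co, target (C)).
-/

namespace Pool.Agent.H73.P4

open Pool.Agent.H98.Code Pool.Agent.H17.TR Pool.Agent.H17.P3

theorem codeSide : CodeSide := by
  intro V _ _ L e H hL hc hH
  exact code_side hL hc hH

/-- a code without `{0, z}`-words in which every closed set avoiding `r` splits is a tree -/
theorem hT : ∀ (X : Type) [Fintype X] [DecidableEq X] (B : Submodule (ZMod 2) (X → K)) (r : X),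
    IsCode B → NoZ B → CritAt B r → (graph B).IsTree :=
  hT_of Pool.Agent.H44.P4.p3 codeSide tree_end

end Pool.Agent.H73.P4
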