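import Mathlib
import Pool.Agent.H73.P4.Code
import Pool.Agent.H77.Q.Defs

set_option autoImplicit false

/-!
Rooted codes with sides (MP_a46c6f_co, full Q1, note 7214), part 1: the inverse of the reduced Laplacian
from the kernel statement, words of even sets.
-/

namespace Pool.Agent.H73.P4

open Pool.Agent.H98.Code Pool.Agent.H17.TR Finset Pool.Agent.H77.Q

section
variable {V : Type} [Fintype V] [DecidableEq V]
variable {L : Submodule (ZMod 2) (V → K)} {H : V → V → ZMod 2} {e : V}

/-- the reduced Laplacian is injective -/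
def Inj (H : V → V → ZMod 2) (e : V) : Prop :=
  ∀ x : V → ZMod 2, x e = 0 → (∀ v, v ≠ e → lap H x v = 0) → x = 0

theorem PhiInj (hi : Inj H e) : Function.Injective (Phi H e) := by
  rw [injective_iff_map_eq_zero]
  intro x hx
  apply hi x
  · rw [← Phi_e (H := H) (e := e) x, hx]
    rfl
  · intro v hv
    rw [← Phi_ne (H := H) (e := e) x hv, hx]
    rfl

theorem exists_inv_of (hi : Inj H e) (hs : ∀ u v, H u v = H v u) :
    ∃ μ : V → V → ZMod 2, IsInv H e μ := by
  have hsurj : Function.Surjective (Phi H e) :=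
    LinearMap.injective_iff_surjective.1 (PhiInj hi)
  choose m hm using fun x : V => hsurj (Pi.single x 1)
  have hme : ∀ x, x ≠ e → m x e = 0 := by
    intro x hx
    rw [← Phi_e (H := H) (e := e) (m x), hm x, Pi.single_eq_of_ne (Ne.symm hx)]
  have hml : ∀ x, ∀ v, v ≠ e → lap H (m x) v = if v = x then 1 else 0 := by
    intro x v hv
    rw [← Phi_ne (H := H) (e := e) (m x) hv, hm x]
    by_cases h : v = x
    · rw [h, Pi.single_eq_same, if_pos rfl]
    · rw [Pi.single_eq_of_ne h, if_neg h]
  have hsym : ∀ x y, x ≠ e → y ≠ e → m x y = m y x := by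
    intro x y hx hy
    have key : ∀ x y, x ≠ e → y ≠ e → ∑ v, m x v * lap H (m y) v = m x y := by
      intro x y hx hy
      rw [Finset.sum_eq_single y]
      · rw [hml y y hy, if_pos rfl, mul_one]
      · intro v _ hv
        by_cases hve : v = e
        · rw [hve, hme x hx, zero_mul]
        · rw [hml y v hve, if_neg hv, mul_zero]
      · intro h
        exact absurd (Finset.mem_univ y) h
    rw [← key x y hx hy, ← key y x hy hx]
    exact lap_symm hs _ _
  refine ⟨fun x y => if x = e then 0 else m x y, ⟨?_, ?_, ?_, ?_⟩⟩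
  · intro y
    simp
  · intro x
    by_cases hx : x = e
    · simp [hx]
    · simp [hx, hme x hx]
  · intro x hx v hv
    have : (fun y => if x = e then 0 else m x y) = m x := by
      funext y
      rw [if_neg hx]
    simp only [this]
    exact hml x v hv
  · intro x y
    by_cases hx : x = e
    · by_cases hy : y = e
      · simp [hx, hy]
      · simp [hx, hy, hme y hy]
    · by_cases hy : y = e
      · simp [hx, hy, hme x hx]
      · simp [hx, hy, hsym x y hx hy]

theorem eq_of_lap' (hi : Inj H e) (x y : V → ZMod 2)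
    (he : x e = y e) (h : ∀ v, v ≠ e → lap H x v = lap H y v) : x = y := by
  have h1 := hi (x + y) (by rw [Pi.add_apply, he, two_zero])
    (fun v hv => by rw [lap_add, h v hv, two_zero])
  funext v
  have h2 := congrFun h1 v
  rw [Pi.add_apply, Pi.zero_apply] at h2
  revert h2
  generalize x v = a
  generalize y v = b
  revert a b
  decide

/-- letters are determined by the first coordinate and the form with the full word -/
theorem let_ext (a b w : K) (hw : w.1 = 1) (h1 : a.1 = b.1) (h2 : kf a w = kf b w) : a = b := by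
  revert a b w
  decide

theorem let_zero (a w : K) (hw : w.1 = 1) (h1 : a.1 = 0) (h2 : kf a w = 0) : a = 0 := by
  revert a w
  decide

theorem let_z (a w : K) (hw : w.1 = 1) (h1 : a.1 = 0) (h2 : kf a w = 1) : a = z := by
  revert a w
  decide

/-- a word of `L` from its values of the form with the full word -/
theorem fst_eq (hH : IsMat L H) (hi : Inj H e) {c : V → K} (hc : c ∈ L) (hce : (c e).1 = 0)
    {x : V → ZMod 2} (hx : x e = 0) (h : ∀ v, v ≠ e → kf (c v) (om H v) = lap H x v) (v : V) :
    (c v).1 = x v := by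
  have h1 : (fun w => (c w).1) = x := eq_of_lap' hi _ _ (by rw [hx]; exact hce) (by
    intro v hv
    rw [← kf_om hH hc v]
    exact h v hv)
  exact congrFun h1 v

/-- the word of an even set -/
theorem lapT {μ : V → V → ZMod 2} (hμ : IsInv H e μ) (hs : ∀ u v, H u v = H v u) {T : Finset V}
    (heT : e ∉ T) (hev : Even T.card) (v : V) :
    lap H (∑ s ∈ T, μ s) v = if v ∈ T then 1 else 0 := by
  by_cases hv : v = e
  · have h0 := Pool.Agent.H73.P4.lap_sum hs (∑ s ∈ T, μ s)
    rw [← Finset.add_sum_erase _ _ (Finset.mem_univ e)] at h0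
    have h1 : ∑ x ∈ Finset.univ.erase e, lap H (∑ s ∈ T, μ s) x = ∑ x ∈ Finset.univ.erase e,
        if x ∈ T then (1 : ZMod 2) else 0 := by
      refine Finset.sum_congr rfl fun x hx => ?_
      exact hμ.lap_sum T heT x (Finset.ne_of_mem_erase hx)
    rw [h1, Finset.sum_ite_mem, Finset.sum_const, nsmul_eq_mul, mul_one] at h0
    have h2 : (Finset.univ.erase e ∩ T) = T := by
      ext x
      simp only [Finset.mem_inter, Finset.mem_erase, Finset.mem_univ, and_true]
      constructor
      · intro h
        exact h.2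
      · intro h
        exact ⟨fun h' => heT (h' ▸ h), h⟩
    rw [h2] at h0
    have h3 : ((T.card : ℕ) : ZMod 2) = 0 := (ZMod.natCast_eq_zero_iff_even).2 hev
    rw [h3, add_zero] at h0
    rw [hv, h0, if_neg heT]
  · exact hμ.lap_sum T heT v hv

/-- the word of `T` -/
noncomputable def mw (H : V → V → ZMod 2) (μ : V → V → ZMod 2) (T : Finset V) : V → K :=
  wd H (∑ s ∈ T, μ s)

theorem mw_fst (μ : V → V → ZMod 2) (T : Finset V) (v : V) :
    (mw H μ T v).1 = ∑ s ∈ T, μ s v := by
  show (∑ s ∈ T, μ s) v = _
  rw [Finset.sum_apply]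

theorem mw_mem (hH : IsMat L H) (μ : V → V → ZMod 2) (T : Finset V) : mw H μ T ∈ L :=
  wd_mem hH _

theorem mw_kf (hH : IsMat L H) {μ : V → V → ZMod 2} (hμ : IsInv H e μ) {T : Finset V}
    (heT : e ∉ T) (hev : Even T.card) (v : V) :
    kf (mw H μ T v) (om H v) = if v ∈ T then 1 else 0 := by
  rw [kf_om hH (mw_mem hH μ T)]
  exact lapT hμ hH.sym heT hev v

theorem mw_e (hH : IsMat L H) {μ : V → V → ZMod 2} (hμ : IsInv H e μ) {T : Finset V}
    (heT : e ∉ T) (hev : Even T.card) : mw H μ T e = 0 := by
  apply let_zero _ (om H e) (om_fst H e)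
  · rw [mw_fst]
    exact Finset.sum_eq_zero fun s _ => hμ.col s
  · rw [mw_kf hH hμ heT hev, if_neg heT]

/-- a word with the value `z` at `g` which is below `u` elsewhere splits `u` -/
theorem splits_of_le {u d : V → K} (hu : u ∈ L) (hd : d ∈ L) {g : V} (hg : d g = z)
    (hug : u g = 0) (h : ∀ v, v ≠ g → d v = 0 ∨ d v = u v) : Splits L u g := by
  refine ⟨d, hd, u + d, L.add_mem hu hd, ?_, hg, ?_, ?_⟩
  · funext v
    show d v + (u v + d v) = u v
    rw [add_comm (u v), ← add_assoc, k_add_self, zero_add]
  · show u g + d g = z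
    rw [hug, hg, zero_add]
  · intro v hv
    rcases h v hv with h1 | h1
    · exact Or.inl h1
    · right
      show u v + d v = 0
      rw [h1, k_add_self]

theorem zfree_fst {u : V → K} (hz : ZFree u) {v : V} (h : u v ≠ 0) : (u v).1 = 1 := by
  have h1 := hz v
  revert h h1
  generalize u v = a
  revert a
  decide

/-- splitting points of words inside a side lie on the side -/
theorem loc (hL : IsCode L) {S : (V → K) → Finset V → Prop} (hR : RSides L e S) {u : V → K}
    {Y : Finset V} (hY : S u Y) (hu : u ∈ L) (hz : ZFree u) (hns : ∀ g, ¬ Splits L u g)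
    {k : V → K} (hk : ∀ v, u v ≠ 0 → k v = 0 ∨ k v = u v) (hk0 : ∀ v, u v = 0 → v ∉ Y → k v = 0)
    {g : V} (hs : Splits L k g) : g ∈ Y := by
  obtain ⟨c₁, h1, c₂, h2, hsum, hg1, hg2, hdis⟩ := hs
  have hc1 : ∀ v, v ≠ g → c₁ v = 0 ∨ c₁ v = k v := by
    intro v hv
    rcases hdis v hv with h3 | h3
    · exact Or.inl h3
    · right
      rw [← hsum, Pi.add_apply, h3, add_zero]
  by_contra hgY
  by_cases hug : u g = 0
  · -- the part of `c₁`
    have hle : ∀ v, u v ≠ 0 → c₁ v = 0 ∨ c₁ v = u v := by
      intro v hv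
      have hvg : v ≠ g := fun h0 => hv (h0 ▸ hug)
      rcases hc1 v hvg with h3 | h3
      · exact Or.inl h3
      · rw [h3]; exact hk v hv
    obtain ⟨k', hk', e1, e2, e3⟩ := hR.part u Y hY c₁ h1 hle
    refine hns g (splits_of_le hu (L.add_mem h1 hk') (g := g) ?_ hug ?_)
    · rw [Pi.add_apply, e2 g hug hgY, add_zero, hg1]
    · intro v hv
      by_cases huv : u v = 0
      · left
        by_cases hvY : v ∈ Y
        · rw [Pi.add_apply, e1 v hvY, k_add_self]
        · rw [Pi.add_apply, e2 v huv hvY, add_zero]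
          rcases hc1 v hv with h3 | h3
          · exact h3
          · rw [h3]; exact hk0 v huv hvY
      · rcases hle v huv with h3 | h3 <;> rcases e3 v huv with h4 | h4 <;>
          rw [Pi.add_apply, h3, h4]
        · exact Or.inl (add_zero _)
        · exact Or.inr (zero_add _)
        · exact Or.inr (add_zero _)
        · exact Or.inl (k_add_self _)
  · -- `⟨c₁, u⟩ = 1`
    have hf := hL.iso c₁ h1 u hu
    unfold form at hf
    rw [Finset.sum_eq_single g] at hf
    · rw [hg1, kf_z_left, zfree_fst hz hug] at hf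
      exact absurd hf (by decide)
    · intro v _ hv
      rcases hc1 v hv with h3 | h3
      · rw [h3, kf_zero_left]
      · rw [h3]
        by_cases huv : u v = 0
        · rw [huv, kf_zero_right]
        · rcases hk v huv with h4 | h4
          · rw [h4, kf_zero_left]
          · rw [h4, kf_self]
    · intro h3
      exact absurd (Finset.mem_univ g) h3

end

end Pool.Agent.H73.P4
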