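import Mathlib
import Pool.Agent.H73.P4.RB1

set_option autoImplicit false

/-!
Rooted codes with sides (MP_a46c6f_co, full Q1, note 7214), part 2: the kernel is zero; split words;
own places.
-/

namespace Pool.Agent.H73.P4

open Pool.Agent.H98.Code Pool.Agent.H17.TR Finset Pool.Agent.H77.Q

section
variable {V : Type} [Fintype V] [DecidableEq V]
variable {L : Submodule (ZMod 2) (V → K)} {H : V → V → ZMod 2} {e : V}

/-- the words of the kernel -/
def Ker (L : Submodule (ZMod 2) (V → K)) (H : V → V → ZMod 2) (e : V) (u : V → K) : Prop :=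
  u ∈ L ∧ u ≠ 0 ∧ u e = 0 ∧ ∀ v, u v = 0 ∨ u v = om H v

theorem Ker.zfree {u : V → K} (h : Ker L H e u) : ZFree u := by
  intro v hv
  rcases h.2.2.2 v with h1 | h1
  · rw [h1] at hv
    exact absurd hv (by decide)
  · have h2 := om_fst H v
    rw [← h1, hv] at h2
    exact absurd h2 (by decide)

theorem om_ne (v : V) : om H v ≠ 0 := by
  intro h0
  have h1 := om_fst H v
  rw [h0] at h1
  exact absurd h1 (by decide)

theorem Ker.not_split (hL : IsCode L) (hH : IsMat L H) {u : V → K} (h : Ker L H e u) (g : V) :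
    ¬ Splits L u g := by
  rintro ⟨c₁, h1, c₂, h2, hsum, hg1, hg2, hdis⟩
  have hf := hL.iso c₁ h1 (om H) (wd_mem hH _)
  unfold form at hf
  rw [Finset.sum_eq_single g] at hf
  · rw [hg1, kf_z_om] at hf
    exact absurd hf (by decide)
  · intro v _ hv
    rcases hdis v hv with h3 | h3
    · rw [h3, kf_zero_left]
    · have h4 : c₁ v = u v := by
        rw [← hsum, Pi.add_apply, h3, add_zero]
      rw [h4]
      rcases h.2.2.2 v with h5 | h5
      · rw [h5, kf_zero_left]
      · rw [h5, kf_self]
  · intro h3
    exact absurd (Finset.mem_univ g) h3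

/-- an irreducible word below a kernel word which does not vanish at a given place -/
theorem exists_irr {u : V → K} (h : Ker L H e u) {y : V} (hy : u y ≠ 0) :
    ∃ d, Ker L H e d ∧ Irr L d ∧ d y ≠ 0 ∧ ∀ v, d v = 0 ∨ d v = u v := by
  classical
  -- minimal support
  have key : ∀ n : ℕ, ∀ u : V → K, Ker L H e u → u y ≠ 0 →
      (Finset.univ.filter fun v => u v ≠ 0).card = n →
      ∃ d, Ker L H e d ∧ Irr L d ∧ d y ≠ 0 ∧ ∀ v, d v = 0 ∨ d v = u v := by
    intro n
    induction n using Nat.strong_induction_on with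
    | _ n ih =>
      intro u h hy hn
      by_cases hI : Irr L u
      · exact ⟨u, h, hI, hy, fun v => Or.inr rfl⟩
      · unfold Irr at hI
        push Not at hI
        obtain ⟨d, hd, hdu, hd0, hdn⟩ := hI
        have hsub : ∀ d : V → K, d ∈ L → (∀ v, d v = 0 ∨ d v = u v) → d ≠ u → d y ≠ 0 →
            ∃ d', Ker L H e d' ∧ Irr L d' ∧ d' y ≠ 0 ∧ ∀ v, d' v = 0 ∨ d' v = u v := by
          intro d hd hdu hdn hdy
          have hk : Ker L H e d := by
            refine ⟨hd, ?_, ?_, ?_⟩
            · rintro rfl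
              exact hdy rfl
            · rcases hdu e with h1 | h1
              · exact h1
              · rw [h1, h.2.2.1]
            · intro v
              rcases hdu v with h1 | h1
              · exact Or.inl h1
              · rw [h1]; exact h.2.2.2 v
          have hlt : (Finset.univ.filter fun v => d v ≠ 0).card < n := by
            rw [← hn]
            apply Finset.card_lt_card
            refine ⟨?_, ?_⟩
            · intro v hv
              rw [Finset.mem_filter] at hv ⊢
              refine ⟨hv.1, ?_⟩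
              rcases hdu v with h1 | h1
              · exact absurd h1 hv.2
              · rw [← h1]; exact hv.2
            · intro hsup
              apply hdn
              funext v
              rcases hdu v with h1 | h1
              · rw [h1]
                by_contra hne
                have := hsup (Finset.mem_filter.2 ⟨Finset.mem_univ v, fun h0 => hne h0.symm⟩)
                exact (Finset.mem_filter.1 this).2 h1
              · exact h1
          obtain ⟨d', k1, k2, k3, k4⟩ := ih _ hlt d hk hdy rfl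
          refine ⟨d', k1, k2, k3, ?_⟩
          intro v
          rcases k4 v with h1 | h1
          · exact Or.inl h1
          · rw [h1]; exact hdu v
        by_cases hdy : d y = 0
        · refine hsub (d + u) (L.add_mem hd h.1) ?_ ?_ ?_
          · intro v
            rcases hdu v with h1 | h1
            · right; rw [Pi.add_apply, h1, zero_add]
            · left; rw [Pi.add_apply, h1, k_add_self]
          · intro h0
            apply hd0
            funext v
            have h1 : d v + u v = u v := congrFun h0 v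
            have h2 : d v = d v + u v + u v := by rw [add_assoc, k_add_self, add_zero]
            rw [h2, h1, k_add_self]
            rfl
          · rw [Pi.add_apply, hdy, zero_add]
            exact hy
        · exact hsub d hd hdu hdn hdy
  exact key _ u h hy rfl

/-- **the kernel is zero** -/
theorem ker_zero (hL : IsCode L) (hH : IsMat L H) {S : (V → K) → Finset V → Prop}
    (hR : RSides L e S) : ∀ u, ¬ Ker L H e u := by
  classical
  have key : ∀ n : ℕ, ∀ u : V → K, ∀ Y : Finset V, Ker L H e u → Irr L u → S u Y → Y.Nonempty →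
      Y.card = n → False := by
    intro n
    induction n using Nat.strong_induction_on with
    | _ n ih =>
      intro u Y h hI hY hne hn
      obtain ⟨y, hy⟩ := hne
      have hle : ∀ v, u v ≠ 0 → om H v = 0 ∨ om H v = u v := by
        intro v hv
        rcases h.2.2.2 v with h1 | h1
        · exact absurd h1 hv
        · exact Or.inr h1.symm
      obtain ⟨k, hk, e1, e2, e3⟩ := hR.part u Y hY (om H) (wd_mem hH _) hle
      have heY := hR.root u Y hY
      have hkk : Ker L H e k := by
        refine ⟨hk, ?_, e2 e h.2.2.1 heY, ?_⟩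
        · intro h0
          have := e1 y hy
          rw [h0] at this
          exact om_ne y this.symm
        · intro v
          by_cases hv : u v = 0
          · by_cases hvY : v ∈ Y
            · exact Or.inr (e1 v hvY)
            · exact Or.inl (e2 v hv hvY)
          · rcases e3 v hv with h1 | h1
            · exact Or.inl h1
            · rw [h1]; exact h.2.2.2 v
      obtain ⟨d, hd, hdI, hdy, hdk⟩ := exists_irr hkk (y := y) (by
        rw [e1 y hy]; exact om_ne y)
      rcases hR.mono u Y hY hI d hd.1 hd.zfree hd.2.1 hdI (by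
          intro v hv
          rcases hdk v with h1 | h1
          · exact Or.inl h1
          · rw [h1]; exact e3 v hv) (by
          intro v hv hvY
          rcases hdk v with h1 | h1
          · exact h1
          · rw [h1]; exact e2 v hv hvY) with ⟨g, hg⟩ | ⟨Y', hY', hne', hS'⟩
      · exact hd.not_split hL hH g hg
      · refine ih Y'.card ?_ d Y' hd hdI hS' hne' rfl
        rw [← hn]
        apply Finset.card_lt_card
        refine ⟨hY', fun hsup => ?_⟩
        exact hdy (hR.zero d Y' hS' y (hsup hy))
  intro u hu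
  obtain ⟨y, hy⟩ : ∃ y, u y ≠ 0 := by
    by_contra hc
    push Not at hc
    exact hu.2.1 (funext hc)
  obtain ⟨d, hd, hdI, -, -⟩ := exists_irr hu hy
  rcases hR.ex d hd.1 hd.zfree hd.2.2.1 hd.2.1 hdI with ⟨g, hg⟩ | ⟨Y, hne, hY⟩
  · exact hd.not_split hL hH g hg
  · exact key _ d Y hd hdI hY hne rfl

theorem inj_of (hL : IsCode L) (hH : IsMat L H) {S : (V → K) → Finset V → Prop}
    (hR : RSides L e S) : Inj H e := by
  intro x hx h
  by_contra hne
  have he : lap H x e = 0 := by
    have h1 := lap_sum hH.sym x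
    rw [Finset.sum_eq_single e] at h1
    · exact h1
    · intro v _ hv
      exact h v hv
    · intro h2
      exact absurd (Finset.mem_univ e) h2
  have hall : ∀ v, lap H x v = 0 := by
    intro v
    by_cases hv : v = e
    · rw [hv]
      exact he
    · exact h v hv
  have hu := wd_mem hH x
  have hk : ∀ v, kf (wd H x v) (om H v) = 0 := by
    intro v
    rw [kf_om hH hu]
    exact hall v
  refine ker_zero hL hH hR (wd H x) ⟨hu, ?_, ?_, ?_⟩
  · intro h0
    apply hne
    funext v
    have := congrArg Prod.fst (congrFun h0 v)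
    exact this
  · exact let_zero _ (om H e) (om_fst H e) hx (hk e)
  · intro v
    exact (kf_eq_zero_iff _ _ (om_ne v)).1 (hk v)

/-- one half of a splitting -/
theorem half' (hi : Inj H e) (hH : IsMat L H) {μ : V → V → ZMod 2}
    (hμ : IsInv H e μ) {T : Finset V} (heT : e ∉ T) {c c₁ c₂ : V → K} {g : V} (h1 : c₁ ∈ L)
    (hsum : c₁ + c₂ = c) (hg : c₁ g = z) (hdis : ∀ v, v ≠ g → c₁ v = 0 ∨ c₂ v = 0)
    (hce : c e = 0) (hgT : g ∉ T)
    (hcl : ∀ v, kf (c v) (om H v) = if v ∈ T then 1 else 0) :
    (fun v => (c₁ v).1) = (∑ s ∈ T.filter (fun t => c₁ t ≠ 0), μ s) + μ g ∧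
      Odd (T.filter (fun t => c₁ t ≠ 0)).card := by
  set T₁ := T.filter (fun t => c₁ t ≠ 0) with hT₁
  have hlap : ∀ v, lap H (fun w => (c₁ w).1) v = (if v ∈ T₁ then 1 else 0) + if v = g then 1 else 0 := by
    intro v
    rw [← kf_om hH h1 v]
    by_cases hvg : v = g
    · rw [hvg, hg, kf_z_om, if_pos rfl, if_neg, zero_add]
      intro h
      exact hgT (Finset.mem_filter.1 h).1
    · rw [if_neg hvg, add_zero]
      by_cases h3 : c₁ v = 0
      · rw [h3, kf_zero_left, if_neg]
        intro h
        exact (Finset.mem_filter.1 h).2 h3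
      · have h4 : c₂ v = 0 := (hdis v hvg).resolve_left h3
        have h5 : c₁ v = c v := by rw [← hsum, Pi.add_apply, h4, add_zero]
        rw [h5, hcl v]
        by_cases h6 : v ∈ T
        · rw [if_pos h6, if_pos (Finset.mem_filter.2 ⟨h6, h3⟩)]
        · rw [if_neg h6, if_neg]
          intro h
          exact h6 (Finset.mem_filter.1 h).1
  have heT₁ : e ∉ T₁ := fun h => heT (Finset.mem_filter.1 h).1
  constructor
  · apply eq_of_lap' hi
    · rw [Pi.add_apply, hμ.sum_e, hμ.col, add_zero]
      by_cases heg : e = g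
      · have : (c₁ e) = z := by rw [heg]; exact hg
        rw [this]
        rfl
      · rcases hdis e heg with h3 | h3
        · rw [h3]
          rfl
        · have h5 : c₁ e = c e := by rw [← hsum, Pi.add_apply, h3, add_zero]
          rw [h5, hce]
          rfl
    · intro v hv
      rw [hlap v, lap_add, hμ.lap_sum T₁ heT₁ v hv]
      congr 1
      by_cases hge : g = e
      · rw [if_neg (fun h => hv (h.trans hge))]
        unfold lap
        symm
        refine Finset.sum_eq_zero fun w _ => ?_
        rw [hge, hμ.row, hμ.row, add_zero, mul_zero]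
      · rw [hμ.inv g hge v hv]
  · have h0 := Pool.Agent.H73.P4.lap_sum hH.sym (fun w => (c₁ w).1)
    simp only [hlap] at h0
    rw [Finset.sum_add_distrib, Finset.sum_ite_eq' Finset.univ g] at h0
    simp only [Finset.mem_univ, if_true] at h0
    rw [Finset.sum_ite_mem, Finset.univ_inter, Finset.sum_const, nsmul_eq_mul, mul_one] at h0
    rw [← Nat.not_even_iff_odd, ← ZMod.natCast_eq_zero_iff_even]
    intro h2
    rw [h2, zero_add] at h0
    exact absurd h0 (by decide)

/-- a splitting of the word of a closed set of size `2` or `4` -/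
theorem key' (hi : Inj H e) (hH : IsMat L H) {μ : V → V → ZMod 2}
    (hμ : IsInv H e μ) {T : Finset V} (heT : e ∉ T) (hcard : T.card = 2 ∨ T.card = 4)
    (hX : ∀ t ∈ T, ∑ s ∈ T, μ s t = 1) {g : V} (hs : Splits L (mw H μ T) g) :
    ∃ t ∈ T, (∀ w, ∑ s ∈ T, μ s w = 0 → μ g w = μ t w) ∧
      (∀ t' ∈ T, t' ≠ t → μ g t' = μ t t') ∧ μ g t = μ t t + 1 ∧ μ g g = μ t g := by
  have hev : Even T.card := by
    rcases hcard with h | h <;> rw [h] <;> decide
  set X : V → ZMod 2 := ∑ s ∈ T, μ s with hXdef
  have hXa : ∀ w, X w = ∑ s ∈ T, μ s w := by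
    intro w
    rw [hXdef, Finset.sum_apply]
  have hcl : ∀ v, kf (mw H μ T v) (om H v) = if v ∈ T then 1 else 0 := mw_kf hH hμ heT hev
  have hXt : ∀ t ∈ T, X t = 1 := by
    intro t ht
    rw [hXa]
    exact hX t ht
  have hce : mw H μ T e = 0 := mw_e hH hμ heT hev
  obtain ⟨c₁, h1, c₂, h2, hsum, hg1, hg2, hdis⟩ := hs
  have hcg : mw H μ T g = 0 := by
    rw [← hsum, Pi.add_apply, hg1, hg2]
    decide
  have hgT : g ∉ T := by
    intro h
    have h3 : X g = 0 := congrArg Prod.fst hcg
    rw [hXt g h] at h3
    exact absurd h3 (by decide)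
  obtain ⟨hA, hAo⟩ := half' hi hH hμ heT h1 hsum hg1 hdis hce hgT hcl
  obtain ⟨hB, hBo⟩ := half' hi hH hμ heT h2 (by rw [add_comm]; exact hsum) hg2
    (fun v hv => (hdis v hv).symm) hce hgT hcl
  set T₁ := T.filter (fun t => c₁ t ≠ 0) with hT₁
  set T₂ := T.filter (fun t => c₂ t ≠ 0) with hT₂
  -- the two parts
  have hor : ∀ t ∈ T, (t ∈ T₁ ∧ t ∉ T₂ ∧ c₂ t = 0) ∨ (t ∈ T₂ ∧ t ∉ T₁ ∧ c₁ t = 0) := by
    intro t ht
    have htg : t ≠ g := fun h => hgT (h ▸ ht)
    have hct : c₁ t + c₂ t ≠ 0 := by
      intro h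
      have h3 : mw H μ T t = 0 := by rw [← hsum, Pi.add_apply, h]
      have h4 : X t = 0 := congrArg Prod.fst h3
      rw [hXt t ht] at h4
      exact absurd h4 (by decide)
    rcases hdis t htg with h3 | h3
    · right
      refine ⟨Finset.mem_filter.2 ⟨ht, fun h4 => hct (by rw [h3, h4, add_zero])⟩, ?_, h3⟩
      intro h4
      exact (Finset.mem_filter.1 h4).2 h3
    · left
      refine ⟨Finset.mem_filter.2 ⟨ht, fun h4 => hct (by rw [h3, h4, add_zero])⟩, ?_, h3⟩
      intro h4
      exact (Finset.mem_filter.1 h4).2 h3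
  have hcardsum : T₁.card + T₂.card = T.card := by
    rw [← Finset.card_union_of_disjoint]
    · congr 1
      ext t
      rw [Finset.mem_union]
      constructor
      · rintro (h | h)
        · exact (Finset.mem_filter.1 h).1
        · exact (Finset.mem_filter.1 h).1
      · intro h
        rcases hor t h with h3 | h3
        · exact Or.inl h3.1
        · exact Or.inr h3.1
    · rw [Finset.disjoint_left]
      intro t h3 h4
      rcases hor t (Finset.mem_filter.1 h3).1 with h5 | h5
      · exact h5.2.1 h4
      · exact h5.2.1 h3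
  have hX12 : ∀ w, (c₁ w).1 + (c₂ w).1 = X w := by
    intro w
    have := congrArg Prod.fst (congrFun hsum w)
    exact this
  have hdis1 : ∀ w, (c₁ w).1 = 0 ∨ (c₂ w).1 = 0 := by
    intro w
    by_cases hw : w = g
    · left
      rw [hw, hg1]
      rfl
    · rcases hdis w hw with h3 | h3
      · left
        rw [h3]
        rfl
      · right
        rw [h3]
        rfl
  -- the end of the proof, from a part with one element
  have fin : ∀ (d₁ d₂ : V → K) (t : V), t ∈ T → (∀ w, (d₁ w).1 + (d₂ w).1 = X w) →
      (∀ w, (d₁ w).1 = 0 ∨ (d₂ w).1 = 0) → (fun v => (d₁ v).1) = μ t + μ g →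
      (∀ t' ∈ T, t' ≠ t → d₁ t' = 0) → d₂ t = 0 → d₁ g = z →
      ∃ t ∈ T, (∀ w, ∑ s ∈ T, μ s w = 0 → μ g w = μ t w) ∧
        (∀ t' ∈ T, t' ≠ t → μ g t' = μ t t') ∧ μ g t = μ t t + 1 ∧ μ g g = μ t g := by
    intro d₁ d₂ t ht hs hd heq h0 h0' hdg
    have hpt : ∀ w, (d₁ w).1 = μ t w + μ g w := fun w => congrFun heq w
    have aux : ∀ a b : ZMod 2, a + b = 0 → b = a := by decide
    have aux1 : ∀ a b : ZMod 2, a + b = 1 → b = a + 1 := by decide
    refine ⟨t, ht, ?_, ?_, ?_, ?_⟩
    · intro w hw
      apply aux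
      rw [← hpt w]
      have h3 := hs w
      rw [hXa w, hw] at h3
      rcases hd w with h4 | h4
      · exact h4
      · rw [h4, add_zero] at h3
        exact h3
    · intro t' ht' hne'
      apply aux
      rw [← hpt t', h0 t' ht' hne']
      rfl
    · apply aux1
      rw [← hpt t]
      have h3 := hs t
      rw [h0', hXt t ht] at h3
      simpa using h3
    · apply aux
      rw [← hpt g, hdg]
      rfl
  have hone : T₁.card = 1 ∨ T₂.card = 1 := by
    obtain ⟨i, hi⟩ := hAo
    obtain ⟨j, hj⟩ := hBo
    rcases hcard with h | h <;> omega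
  rcases hone with h3 | h3
  · obtain ⟨t, ht⟩ := Finset.card_eq_one.1 h3
    have htT : t ∈ T := by
      have : t ∈ T₁ := by rw [ht]; exact Finset.mem_singleton_self t
      exact (Finset.mem_filter.1 this).1
    refine fin c₁ c₂ t htT hX12 hdis1 ?_ ?_ ?_ hg1
    · rw [hA, ht, Finset.sum_singleton]
    · intro t' ht' hne'
      rcases hor t' ht' with h4 | h4
      · exact absurd (by rw [ht] at h4; exact Finset.mem_singleton.1 h4.1) hne'
      · exact h4.2.2
    · rcases hor t htT with h4 | h4
      · exact h4.2.2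
      · exact absurd (by rw [ht]; exact Finset.mem_singleton_self t) h4.2.1
  · obtain ⟨t, ht⟩ := Finset.card_eq_one.1 h3
    have htT : t ∈ T := by
      have : t ∈ T₂ := by rw [ht]; exact Finset.mem_singleton_self t
      exact (Finset.mem_filter.1 this).1
    refine fin c₂ c₁ t htT (fun w => by rw [add_comm]; exact hX12 w) (fun w => (hdis1 w).symm)
      ?_ ?_ ?_ hg2
    · rw [hB, ht, Finset.sum_singleton]
    · intro t' ht' hne'
      rcases hor t' ht' with h4 | h4
      · exact h4.2.2
      · exact absurd (by rw [ht] at h4; exact Finset.mem_singleton.1 h4.1) hne'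
    · rcases hor t htT with h4 | h4
      · exact absurd (by rw [ht]; exact Finset.mem_singleton_self t) h4.2.1
      · exact h4.2.2

/-- **own places** of an unsplit word -/
theorem own (hi : Inj H e) (hH : IsMat L H) {μ : V → V → ZMod 2} (hμ : IsInv H e μ)
    {S : (V → K) → Finset V → Prop} (hR : RSides L e S) {T : Finset V} (heT : e ∉ T)
    (hev : Even T.card) (hX : ∀ t ∈ T, ∑ s ∈ T, μ s t = 1) {Y : Finset V}
    (hY : S (mw H μ T) Y) {y : V} (hy : y ∈ Y) {J : Finset V} (hJT : J ⊆ T) {c : ZMod 2}
    (hJ : ∀ t ∈ T, μ y t + ∑ s ∈ J, μ s t + c = if t ∈ J then 1 else 0) :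
    ∃ J' ⊆ T, Odd J'.card ∧ (∀ t ∈ T, μ y t + ∑ s ∈ J', μ s t = if t ∈ J' then 1 else 0) ∧
      ∀ w, w ∉ Y → ∑ s ∈ T, μ s w = 0 → μ y w + ∑ s ∈ J', μ s w = 0 := by
  classical
  set u := mw H μ T with hu
  have huL : u ∈ L := mw_mem hH μ T
  have hue : u e = 0 := mw_e hH hμ heT hev
  have huk : ∀ v, kf (u v) (om H v) = if v ∈ T then 1 else 0 := mw_kf hH hμ heT hev
  have hu1 : ∀ v, (u v).1 = ∑ s ∈ T, μ s v := mw_fst μ T
  have heY := hR.root u Y hY
  have hYT : ∀ v ∈ Y, v ∉ T := by
    intro v hv hvT
    have h1 := hR.zero u Y hY v hv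
    have h2 := hX v hvT
    rw [← hu1, h1] at h2
    exact absurd h2 (by decide)
  have hyT := hYT y hy
  have hye : y ≠ e := fun h0 => heY (h0 ▸ hy)
  have heJ : e ∉ J := fun h0 => heT (hJT h0)
  -- the word `k`
  set f : V → ZMod 2 := μ y + (∑ s ∈ J, μ s) + c • (fun _ => (1 : ZMod 2)) with hf
  have hkL := wd_mem hH f
  have hk1 : ∀ v, (wd H f v).1 = μ y v + ∑ s ∈ J, μ s v + c := by
    intro v
    show f v = _
    rw [hf]
    simp only [Pi.add_apply, Pi.smul_apply, Finset.sum_apply, smul_eq_mul, mul_one]
  have hkk : ∀ v, v ≠ e → kf (wd H f v) (om H v) =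
      (if v = y then 1 else 0) + if v ∈ J then 1 else 0 := by
    intro v hv
    rw [kf_om hH hkL]
    show lap H f v = _
    rw [hf, lap_add, lap_add, lap_smul, lap_one, mul_zero, add_zero, hμ.inv y hye v hv,
      hμ.lap_sum J heJ v hv]
  have hle : ∀ v, u v ≠ 0 → wd H f v = 0 ∨ wd H f v = u v := by
    intro v hv
    have hve : v ≠ e := fun h0 => hv (h0 ▸ hue)
    have hvy : v ≠ y := by
      rintro rfl
      exact hv (hR.zero u Y hY v hy)
    have h2 := hkk v hve
    rw [if_neg hvy, zero_add] at h2
    by_cases hvT : v ∈ T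
    · have h1 := hk1 v
      rw [hJ v hvT] at h1
      by_cases hvJ : v ∈ J
      · right
        rw [if_pos hvJ] at h1 h2
        apply let_ext _ _ (om H v) (om_fst H v)
        · rw [h1, hu1, hX v hvT]
        · rw [h2, huk v, if_pos hvT]
      · left
        rw [if_neg hvJ] at h1 h2
        exact let_zero _ (om H v) (om_fst H v) h1 h2
    · rw [if_neg (fun h0 => hvT (hJT h0))] at h2
      have h3 := huk v
      rw [if_neg hvT] at h3
      have h4 := (kf_eq_zero_iff _ _ (om_ne v)).1 h2
      have h5 := (kf_eq_zero_iff _ _ (om_ne v)).1 h3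
      rcases h4 with h4 | h4
      · exact Or.inl h4
      · rcases h5 with h5 | h5
        · exact absurd h5 hv
        · right; rw [h4, h5]
  obtain ⟨k', hk', e1, e2, e3⟩ := hR.part u Y hY _ hkL hle
  have hk'e : k' e = 0 := e2 e hue heY
  set J' := T.filter (fun t => k' t ≠ 0) with hJ'
  have hJ'T : J' ⊆ T := Finset.filter_subset _ _
  have hk'k : ∀ v, kf (k' v) (om H v) = (if v = y then 1 else 0) + if v ∈ J' then 1 else 0 := by
    intro v
    by_cases hvY : v ∈ Y
    · have hve : v ≠ e := fun h0 => heY (h0 ▸ hvY)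
      rw [e1 v hvY, hkk v hve, if_neg (fun h0 => hYT v hvY (hJT h0)),
        if_neg (fun h0 => hYT v hvY (hJ'T h0))]
    · have hvy : v ≠ y := fun h0 => hvY (h0 ▸ hy)
      rw [if_neg hvy, zero_add]
      by_cases huv : u v = 0
      · have h0 := e2 v huv hvY
        rw [h0, kf_zero_left, if_neg]
        intro h1
        exact (Finset.mem_filter.1 h1).2 h0
      · rcases e3 v huv with h0 | h0
        · rw [h0, kf_zero_left, if_neg]
          intro h1
          exact (Finset.mem_filter.1 h1).2 h0
        · rw [h0, huk v]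
          by_cases hvT : v ∈ T
          · rw [if_pos hvT, if_pos (Finset.mem_filter.2 ⟨hvT, by rw [h0]; exact huv⟩)]
          · rw [if_neg hvT, if_neg (fun h1 => hvT (hJ'T h1))]
  have heJ' : e ∉ J' := fun h0 => heT (hJ'T h0)
  have hfst : ∀ v, (k' v).1 = (μ y + ∑ s ∈ J', μ s) v := by
    apply fst_eq hH hi hk' (by rw [hk'e]; rfl)
    · rw [Pi.add_apply, hμ.col, hμ.sum_e, add_zero]
    · intro v hv
      rw [hk'k v, lap_add, hμ.inv y hye v hv, hμ.lap_sum J' heJ' v hv]
  have hfst' : ∀ v, (k' v).1 = μ y v + ∑ s ∈ J', μ s v := by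
    intro v
    rw [hfst v, Pi.add_apply, Finset.sum_apply]
  refine ⟨J', hJ'T, ?_, ?_, ?_⟩
  · have h0 := Pool.Agent.H73.P4.lap_sum hH.sym (fun w => (k' w).1)
    have h1 : ∀ v, lap H (fun w => (k' w).1) v = (if v = y then 1 else 0) +
        if v ∈ J' then 1 else 0 := by
      intro v
      rw [← kf_om hH hk' v]
      exact hk'k v
    simp only [h1] at h0
    rw [Finset.sum_add_distrib, Finset.sum_ite_eq' Finset.univ y] at h0
    simp only [Finset.mem_univ, if_true] at h0
    rw [Finset.sum_ite_mem, Finset.univ_inter, Finset.sum_const, nsmul_eq_mul, mul_one] at h0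
    rw [← Nat.not_even_iff_odd, ← ZMod.natCast_eq_zero_iff_even]
    intro h2
    rw [h2, add_zero] at h0
    exact absurd h0 (by decide)
  · intro t ht
    rw [← hfst' t]
    have hut : u t ≠ 0 := by
      intro h0
      have h1 := hX t ht
      rw [← hu1, h0] at h1
      exact absurd h1 (by decide)
    by_cases h0 : k' t = 0
    · rw [h0, if_neg]
      · rfl
      · intro h1
        exact (Finset.mem_filter.1 h1).2 h0
    · rw [if_pos (Finset.mem_filter.2 ⟨ht, h0⟩)]
      rcases e3 t hut with h1 | h1
      · exact absurd h1 h0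
      · rw [h1, hu1, hX t ht]
  · intro w hwY hw
    rw [← hfst' w]
    have hwT : w ∉ T := by
      intro h0
      rw [hX w h0] at hw
      exact absurd hw (by decide)
    have huw : u w = 0 := by
      apply let_zero _ (om H w) (om_fst H w)
      · rw [hu1, hw]
      · rw [huk w, if_neg hwT]
    rw [e2 w huw hwY]
    rfl

end

end Pool.Agent.H73.P4
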