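import Pool.Agent.H77.Q.Defs
import Pool.Agent.H45.TR.Minor

set_option autoImplicit false

/-!
Own edges of sides for the minors at a root (MP_a46c6f_co, full Q1, note 7214 (0)).
-/

namespace Pool.Agent.H73.P4

open Finset Pool.Agent.H98.Code Pool.Agent.H26.TR Pool.Agent.H45.TR Pool.Agent.H77.Q

variable {V : Type} [Fintype V] [DecidableEq V]

/-- the side interface without a root: `S u Y` says that `Y` is the set of own places of one of the two
sides of the `z`-free word `u` -/
structure LSides (L : Submodule (ZMod 2) (V → K)) (S : (V → K) → Finset V → Prop) : Prop where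
  zero : ∀ u Y, S u Y → ∀ v ∈ Y, u v = 0
  ex : ∀ u ∈ L, ZFree u → u ≠ 0 → ∀ e, u e = 0 → ∃ Y, S u Y ∧ e ∉ Y
  wc : ∀ u ∈ L, ZFree u → u ≠ 0 → S u ∅ → ∃ g, Splits L u g
  part : ∀ u Y, S u Y → ∀ k ∈ L, (∀ v, u v ≠ 0 → k v = 0 ∨ k v = u v) →
    ∃ k' ∈ L, (∀ v ∈ Y, k' v = k v) ∧ (∀ v, u v = 0 → v ∉ Y → k' v = 0) ∧
      (∀ v, u v ≠ 0 → k' v = 0 ∨ k' v = u v)
  mono : ∀ u Y, S u Y → Irr L u → ∀ k ∈ L, ZFree k → k ≠ 0 →
    (∀ v, u v ≠ 0 → k v = 0 ∨ k v = u v) → (∀ v, u v = 0 → v ∉ Y → k v = 0) →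
    ∃ Y', Y' ⊆ Y ∧ S k Y'

section
variable {L : Submodule (ZMod 2) (V → K)} {e : V} {D : V → K} {P Q : Finset (Finset V)}
  {h : Finset V → V}

/-- a word which vanishes on the kept places vanishes -/
theorem lift_zero (hiso : ∀ u ∈ L, ∀ w ∈ L, form u w = 0) (hP : Parts L e D P) (hQ : Q ⊆ P)
    (hl : ∀ v, v ≠ e → (D v).1 = 1) (hh : ∀ M ∈ Q, h M ∈ M) {c : V → K} (hc : c ∈ L)
    (hce : c e = 0)
    (hcs : ∀ v, v ∉ Set.range (Subtype.val : W Q → V) → kf (c v) (sg D Q h v) = 0)
    (hc0 : ∀ v, v ∈ Set.range (Subtype.val : W Q → V) → c v = 0) : c = 0 := by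
  classical
  have hce1 : (c e).1 = 0 := by rw [hce]; rfl
  have hKD : KD L D e c := by
    refine ⟨hc, ?_, Or.inl hce⟩
    intro v _
    by_cases hvW : v ∈ Set.range (Subtype.val : W Q → V)
    · exact Or.inl (hc0 v hvW)
    · exact le_D hiso hP hQ hl hh hc hce1 hcs hvW
  funext v
  by_cases hvW : v ∈ Set.range (Subtype.val : W Q → V)
  · exact hc0 v hvW
  · obtain ⟨M, hM, hvM⟩ := (nmem_range_iff Q v).1 hvW
    have hve : v ≠ e := fun h0 => hP.nmem M (hQ hM) (h0 ▸ hvM)
    have hh0 : c (h M) = 0 := eq_zero_h hiso hP hQ hl hh hc hce1 hcs hM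
    rcases hP.union c hKD M (hQ hM) with h1 | h1
    · exact absurd hh0 (Pool.Agent.H26.TR.mem_sup.1 (h1 (hh M hM))).2
    · by_contra hne
      exact Finset.disjoint_left.1 h1 hvM (Pool.Agent.H26.TR.mem_sup.2 ⟨hve, hne⟩)

theorem lift_zfree (hP : Parts L e D P) (hQ : Q ⊆ P)
    (hl : ∀ v, v ≠ e → (D v).1 = 1) {u : V → K}
    (hus : ∀ v, v ∉ Set.range (Subtype.val : W Q → V) → kf (u v) (sg D Q h v) = 0)
    (hz : ZFree (fun w : W Q => u w.1)) : ZFree u := by
  intro v
  by_cases hvW : v ∈ Set.range (Subtype.val : W Q → V)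
  · obtain ⟨w, rfl⟩ := hvW
    exact hz w
  · obtain ⟨M, hM, hvM⟩ := (nmem_range_iff Q v).1 hvW
    have hve : v ≠ e := fun h0 => hP.nmem M (hQ hM) (h0 ▸ hvM)
    have h1 := hus v hvW
    rw [kf_eq_zero_iff _ _ (sg_ne_zero hl hve)] at h1
    intro h2
    rcases h1 with h1 | h1
    · rw [h2] at h1; exact absurd h1 (by decide)
    · have h3 := sg_fst (Q := Q) (h := h) hl hve
      rw [← h1, h2] at h3
      exact absurd h3 (by decide)

theorem splits_N (hiso : ∀ u ∈ L, ∀ w ∈ L, form u w = 0) (hP : Parts L e D P) (hQ : Q ⊆ P)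
    (hl : ∀ v, v ≠ e → (D v).1 = 1)
    (hh : ∀ M ∈ Q, h M ∈ M) (heW : ∀ M ∈ Q, e ∉ M) {u : V → K}
    (hus : ∀ v, v ∉ Set.range (Subtype.val : W Q → V) → kf (u v) (sg D Q h v) = 0)
    (hue : u e = 0) (hs : ∃ g, Splits L u g) :
    ∃ g, Splits (N L D Q h) (fun w => u w.1) g := by
  classical
  obtain ⟨g, c₁, hc₁, c₂, hc₂, hsum, hg1, hg2, hd⟩ := hs
  have hv1 : ∀ v, v ≠ g → c₁ v = 0 ∨ c₁ v = u v := by
    intro v hv
    rcases hd v hv with h1 | h1
    · exact Or.inl h1
    · right
      rw [← hsum, Pi.add_apply, h1, add_zero]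
  have hv2 : ∀ v, v ≠ g → c₂ v = 0 ∨ c₂ v = u v := by
    intro v hv
    rcases hd v hv with h1 | h1
    · right
      rw [← hsum, Pi.add_apply, h1, zero_add]
    · exact Or.inl h1
  have hgW : g ∈ Set.range (Subtype.val : W Q → V) := by
    by_contra hgW
    obtain ⟨M, hM, hgM⟩ := (nmem_range_iff Q g).1 hgW
    have hge : g ≠ e := fun h0 => heW M hM (h0 ▸ hgM)
    have key : ∀ c : V → K, c ∈ L → c g = z → (∀ v, v ≠ g → c v = 0 ∨ c v = u v) →
        g ≠ h M ∧ c (h M) ≠ 0 := by
      intro c hc hcg hcv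
      have hce : c e = 0 := by
        rcases hcv e (Ne.symm hge) with h1 | h1
        · exact h1
        · rw [h1, hue]
      have h0 := hiso c hc _ (hP.word M (hQ hM))
      unfold form at h0
      rw [← Finset.add_sum_erase _ _ (Finset.mem_univ g)] at h0
      have hg3 : kf (c g) (pw D e M g) = 1 := by
        unfold pw
        rw [if_neg hge, if_pos hgM, hcg, kf_z_left]
        exact hl g hge
      rw [hg3] at h0
      by_contra hcon
      have hrest : ∑ x ∈ Finset.univ.erase g, kf (c x) (pw D e M x) = 0 := by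
        apply Finset.sum_eq_zero
        intro x hx
        have hxg : x ≠ g := Finset.ne_of_mem_erase hx
        by_cases hxe : x = e
        · rw [hxe, hce, kf_zero_left]
        · unfold pw
          rw [if_neg hxe]
          by_cases hxM : x ∈ M
          · rw [if_pos hxM]
            by_cases hxh : x = h M
            · have hc0 : c (h M) = 0 := by
                by_contra hne
                apply hcon
                exact ⟨fun h1 => hxg (hxh.trans h1.symm), hne⟩
              rw [hxh, hc0, kf_zero_left]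
            · rcases hcv x hxg with h1 | h1
              · rw [h1, kf_zero_left]
              · rw [h1, ← sg_ne hP hQ hh hM hxM hxh]
                exact hus x ((nmem_range_iff Q x).2 ⟨M, hM, hxM⟩)
          · rw [if_neg hxM, kf_zero_right]
      rw [hrest] at h0
      exact absurd h0 (by decide)
    obtain ⟨h1, h2⟩ := key c₁ hc₁ hg1 hv1
    obtain ⟨_, h3⟩ := key c₂ hc₂ hg2 hv2
    rcases hd (h M) (Ne.symm h1) with h4 | h4
    · exact h2 h4
    · exact h3 h4
  obtain ⟨g', rfl⟩ := hgW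
  have hin : ∀ c : V → K, (∀ v, v ≠ (g' : V) → c v = 0 ∨ c v = u v) →
      ∀ v, v ∉ Set.range (Subtype.val : W Q → V) → kf (c v) (sg D Q h v) = 0 := by
    intro c hc v hv
    have hne : v ≠ (g' : V) := by
      rintro rfl
      exact hv ⟨g', rfl⟩
    rcases hc v hne with h1 | h1
    · rw [h1, kf_zero_left]
    · rw [h1]; exact hus v hv
  refine ⟨g', fun w => c₁ w, ⟨c₁, hc₁, hin c₁ hv1, rfl⟩, fun w => c₂ w,
    ⟨c₂, hc₂, hin c₂ hv2, rfl⟩, ?_, hg1, hg2, ?_⟩
  · funext w
    exact congrFun hsum w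
  · intro w hw
    exact hd w (fun h0 => hw (Subtype.ext h0))

/-- a lift of a word without smaller words has no smaller words -/
theorem irr_lift (hiso : ∀ u ∈ L, ∀ w ∈ L, form u w = 0) (hP : Parts L e D P) (hQ : Q ⊆ P)
    (hl : ∀ v, v ≠ e → (D v).1 = 1) (hh : ∀ M ∈ Q, h M ∈ M) {u : V → K} (hu : u ∈ L)
    (hue : u e = 0)
    (hus : ∀ v, v ∉ Set.range (Subtype.val : W Q → V) → kf (u v) (sg D Q h v) = 0)
    (hI : Irr (N L D Q h) (fun w => u w.1)) : Irr L u := by
  intro d hd hdu
  have hds : ∀ v, v ∉ Set.range (Subtype.val : W Q → V) → kf (d v) (sg D Q h v) = 0 := by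
    intro v hv
    rcases hdu v with h1 | h1
    · rw [h1, kf_zero_left]
    · rw [h1]; exact hus v hv
  have hde : d e = 0 := by
    rcases hdu e with h1 | h1
    · exact h1
    · rw [h1, hue]
  rcases hI (fun w => d w.1) ⟨d, hd, hds, rfl⟩ (fun w => hdu w.1) with h1 | h1
  · left
    refine lift_zero hiso hP hQ hl hh hd hde hds ?_
    rintro v ⟨w, rfl⟩
    exact congrFun h1 w
  · right
    have h2 : d + u = 0 := by
      refine lift_zero hiso hP hQ hl hh (L.add_mem hd hu) ?_ ?_ ?_
      · rw [Pi.add_apply, hde, hue, add_zero]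
      · intro v hv
        rw [Pi.add_apply, kf_add_left, hds v hv, hus v hv, add_zero]
      · rintro v ⟨w, rfl⟩
        have h3 : d w.1 = u w.1 := congrFun h1 w
        rw [Pi.add_apply, h3, k_add_self]
    funext v
    have h3 : d v + u v = 0 := congrFun h2 v
    have h4 : d v = d v + u v + u v := by rw [add_assoc, k_add_self, add_zero]
    rw [h4, h3, zero_add]

/-- the relation for the minor -/
def SB (L : Submodule (ZMod 2) (V → K)) (D : V → K) (Q : Finset (Finset V)) (h : Finset V → V)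
    (e : V) (S : (V → K) → Finset V → Prop) (a : W Q → K) (Y : Finset (W Q)) : Prop :=
  ∃ u ∈ L, (∀ v, v ∉ Set.range (Subtype.val : W Q → V) → kf (u v) (sg D Q h v) = 0) ∧
    a = (fun w => u w.1) ∧ u e = 0 ∧ S u (Y.map (Function.Embedding.subtype _)) ∧
    e ∉ Y.map (Function.Embedding.subtype _)

/-- words of the minor below the word `u` come from words below `u` -/
theorem le_lift (hP : Parts L e D P) (hQ : Q ⊆ P) (hiso : ∀ u ∈ L, ∀ w ∈ L, form u w = 0)
    (hl : ∀ v, v ≠ e → (D v).1 = 1) (hh : ∀ M ∈ Q, h M ∈ M) {u k : V → K} (hu : u ∈ L)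
    (hue : u e = 0)
    (hus : ∀ v, v ∉ Set.range (Subtype.val : W Q → V) → kf (u v) (sg D Q h v) = 0)
    (hks : ∀ v, v ∉ Set.range (Subtype.val : W Q → V) → kf (k v) (sg D Q h v) = 0)
    (hk : ∀ w : W Q, u w.1 ≠ 0 → k w.1 = 0 ∨ k w.1 = u w.1) :
    ∀ v, u v ≠ 0 → k v = 0 ∨ k v = u v := by
  intro v hv
  by_cases hvW : v ∈ Set.range (Subtype.val : W Q → V)
  · obtain ⟨w, rfl⟩ := hvW
    exact hk w hv
  · obtain ⟨M, hM, hvM⟩ := (nmem_range_iff Q v).1 hvW
    have hve : v ≠ e := fun h0 => hP.nmem M (hQ hM) (h0 ▸ hvM)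
    have hue1 : (u e).1 = 0 := by rw [hue]; rfl
    have h1 : u v = 0 ∨ u v = sg D Q h v := (kf_eq_zero_iff _ _ (sg_ne_zero hl hve)).1 (hus v hvW)
    have h2 : k v = 0 ∨ k v = sg D Q h v := (kf_eq_zero_iff _ _ (sg_ne_zero hl hve)).1 (hks v hvW)
    rcases h2 with h2 | h2
    · exact Or.inl h2
    · rcases h1 with h1 | h1
      · exact absurd h1 hv
      · right; rw [h2, h1]

/-- **own places of a side lie among the kept places** unless the word splits at the root -/
theorem own_kept (hL : IsCode L) (hP : Parts L e D P) (hQ : Q ⊆ P)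
    (hl : ∀ v, v ≠ e → (D v).1 = 1) (hh : ∀ M ∈ Q, h M ∈ M) (heW : ∀ M ∈ Q, e ∉ M)
    {S : (V → K) → Finset V → Prop} (hS : LSides L S) {u : V → K} (hu : u ∈ L) (hue : u e = 0)
    (hus : ∀ v, v ∉ Set.range (Subtype.val : W Q → V) → kf (u v) (sg D Q h v) = 0)
    (hI : Irr (N L D Q h) (fun w => u w.1)) {Y : Finset V} (hY : S u Y) (heY : e ∉ Y)
    (hns : ¬ ∃ g, Splits (N L D Q h) (fun w => u w.1) g) :
    ∀ v ∈ Y, v ∈ Set.range (Subtype.val : W Q → V) := by
  classical
  intro v hvY
  by_contra hvW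
  obtain ⟨M, hM, hvM⟩ := (nmem_range_iff Q v).1 hvW
  have hve : v ≠ e := fun h0 => hP.nmem M (hQ hM) (h0 ▸ hvM)
  have heM : e ∉ M := hP.nmem M (hQ hM)
  have hue1 : (u e).1 = 0 := by rw [hue]; rfl
  have huD : ∀ x, x ∉ Set.range (Subtype.val : W Q → V) → u x = 0 ∨ u x = D x :=
    fun x hx => le_D hL.iso hP hQ hl hh hu hue1 hus hx
  -- the word of `M`
  have hmle : ∀ x, u x ≠ 0 → pw D e M x = 0 ∨ pw D e M x = u x := by
    intro x hx
    have hxe : x ≠ e := fun h0 => hx (h0 ▸ hue)
    by_cases hxM : x ∈ M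
    · have hxW : x ∉ Set.range (Subtype.val : W Q → V) := (nmem_range_iff Q x).2 ⟨M, hM, hxM⟩
      right
      unfold pw
      rw [if_neg hxe, if_pos hxM]
      rcases huD x hxW with h1 | h1
      · exact absurd h1 hx
      · exact h1.symm
    · left
      unfold pw
      rw [if_neg hxe, if_neg hxM]
  obtain ⟨k, hk, hk1, hk2, hk3⟩ := hS.part u Y hY _ (hP.word M (hQ hM)) hmle
  have hke : k e = 0 := hk2 e hue heY
  have hkv : k v = D v := by
    rw [hk1 v hvY]
    unfold pw
    rw [if_neg hve, if_pos hvM]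
  have hDne : ∀ x, x ≠ e → D x ≠ 0 := by
    intro x hx h0
    have := hl x hx
    rw [h0] at this
    exact absurd this (by decide)
  have huv : u v = 0 := hS.zero u Y hY v hvY
  -- values of `k` outside the kept places
  have hkD : ∀ x, x ∉ Set.range (Subtype.val : W Q → V) → k x = 0 ∨ k x = D x := by
    intro x hx
    have hxe : x ≠ e := by
      rintro rfl
      obtain ⟨M', hM', hx'⟩ := (nmem_range_iff Q x).1 hx
      exact heW M' hM' hx'
    by_cases hux : u x = 0
    · by_cases hxY : x ∈ Y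
      · rw [hk1 x hxY]
        unfold pw
        rw [if_neg hxe]
        split_ifs
        · exact Or.inr rfl
        · exact Or.inl rfl
      · exact Or.inl (hk2 x hux hxY)
    · rcases hk3 x hux with h1 | h1
      · exact Or.inl h1
      · rw [h1]; exact huD x hx
  have hut : ∀ M' ∈ Q, u (h M') = 0 := fun M' hM' => eq_zero_h hL.iso hP hQ hl hh hu hue1 hus hM'
  have hkt : ∀ M' ∈ Q, M' ≠ M → k (h M') = 0 := by
    intro M' hM' hne
    by_cases hxY : h M' ∈ Y
    · rw [hk1 _ hxY]
      unfold pw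
      have h1 : h M' ≠ e := fun h0 => hP.nmem M' (hQ hM') (h0 ▸ hh M' hM')
      rw [if_neg h1, if_neg]
      intro h2
      exact Finset.disjoint_left.1 (hP.disj M' (hQ hM') M (hQ hM) hne) (hh M' hM') h2
    · exact hk2 _ (hut M' hM') hxY
  -- a word which is `≤ D` outside and vanishes at the marked places belongs to the minor
  have hmem : ∀ c : V → K, (∀ x, x ∉ Set.range (Subtype.val : W Q → V) → c x = 0 ∨ c x = D x) →
      (∀ M' ∈ Q, c (h M') = 0) →
      ∀ x, x ∉ Set.range (Subtype.val : W Q → V) → kf (c x) (sg D Q h x) = 0 := by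
    intro c hc1 hc2 x hx
    obtain ⟨M', hM', hxM'⟩ := (nmem_range_iff Q x).1 hx
    by_cases hxh : x = h M'
    · rw [hxh, hc2 M' hM', kf_zero_left]
    · rw [sg_ne hP hQ hh hM' hxM' hxh]
      rcases hc1 x hx with h1 | h1
      · rw [h1, kf_zero_left]
      · rw [h1, kf_self]
  have hmW : ∀ w : W Q, w.1 ≠ e → pw D e M w.1 = 0 := by
    intro w hw
    unfold pw
    rw [if_neg hw, if_neg (w.2 M hM)]
  have hkle : ∀ w : W Q, k w.1 = 0 ∨ k w.1 = u w.1 := by
    intro w
    by_cases hux : u w.1 = 0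
    · by_cases hxY : w.1 ∈ Y
      · left
        have hwe : w.1 ≠ e := fun h0 => heY (h0 ▸ hxY)
        rw [hk1 _ hxY]
        exact hmW w hwe
      · exact Or.inl (hk2 _ hux hxY)
    · exact hk3 _ hux
  by_cases hkM : k (h M) = 0
  · -- `k` is a lift
    have hks := hmem k hkD (by
      intro M' hM'
      by_cases hne : M' = M
      · rw [hne]; exact hkM
      · exact hkt M' hM' hne)
    rcases hI (fun w => k w.1) ⟨k, hk, hks, rfl⟩ hkle with h1 | h1
    · have h2 : k = 0 := lift_zero hL.iso hP hQ hl hh hk hke hks (by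
        rintro x ⟨w, rfl⟩
        exact congrFun h1 w)
      rw [h2] at hkv
      exact hDne v hve hkv.symm
    · have h2 : k + u = 0 := by
        refine lift_zero hL.iso hP hQ hl hh (L.add_mem hk hu) ?_ ?_ ?_
        · rw [Pi.add_apply, hke, hue, add_zero]
        · intro x hx
          rw [Pi.add_apply, kf_add_left, hks x hx, hus x hx, add_zero]
        · rintro x ⟨w, rfl⟩
          have h3 : k w.1 = u w.1 := congrFun h1 w
          rw [Pi.add_apply, h3, k_add_self]
      have h3 : k v + u v = 0 := congrFun h2 v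
      rw [huv, add_zero, hkv] at h3
      exact hDne v hve h3
  · -- `u` splits at the root
    have hkMD : k (h M) = D (h M) := by
      have hxW : h M ∉ Set.range (Subtype.val : W Q → V) :=
        (nmem_range_iff Q _).2 ⟨M, hM, hh M hM⟩
      rcases hkD _ hxW with h1 | h1
      · exact absurd h1 hkM
      · exact h1
    have hhMe : h M ≠ e := fun h0 => heM (h0 ▸ hh M hM)
    have hmD : ∀ x, x ∉ Set.range (Subtype.val : W Q → V) →
        pw D e M x = 0 ∨ pw D e M x = D x := by
      intro x hx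
      have hxe : x ≠ e := by
        rintro rfl
        obtain ⟨M', hM', hx'⟩ := (nmem_range_iff Q x).1 hx
        exact heW M' hM' hx'
      unfold pw
      rw [if_neg hxe]
      split_ifs
      · exact Or.inr rfl
      · exact Or.inl rfl
    have hadd : ∀ a b c : K, (a = 0 ∨ a = c) → (b = 0 ∨ b = c) → (a + b = 0 ∨ a + b = c) := by
      intro a b c ha hb
      rcases ha with ha | ha <;> rcases hb with hb | hb
      · left; rw [ha, hb, add_zero]
      · right; rw [ha, hb, zero_add]
      · right; rw [ha, hb, add_zero]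
      · left; rw [ha, hb, k_add_self]
    have hmt : ∀ M' ∈ Q, M' ≠ M → pw D e M (h M') = 0 := by
      intro M' hM' hne
      unfold pw
      have h1 : h M' ≠ e := fun h0 => hP.nmem M' (hQ hM') (h0 ▸ hh M' hM')
      rw [if_neg h1, if_neg]
      intro h2
      exact Finset.disjoint_left.1 (hP.disj M' (hQ hM') M (hQ hM) hne) (hh M' hM') h2
    have hmM : pw D e M (h M) = D (h M) := by
      unfold pw
      rw [if_neg hhMe, if_pos (hh M hM)]
    have hme : pw D e M e = z := by simp [pw]
    have hmL := hP.word M (hQ hM)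
    have hl1 := hmem (k + pw D e M) (by
        intro x hx
        exact hadd _ _ _ (hkD x hx) (hmD x hx)) (by
        intro M' hM'
        by_cases hne : M' = M
        · rw [hne, Pi.add_apply, hkMD, hmM, k_add_self]
        · rw [Pi.add_apply, hkt M' hM' hne, hmt M' hM' hne, add_zero])
    have hl2 := hmem (k + u + pw D e M) (by
        intro x hx
        exact hadd _ _ _ (hadd _ _ _ (hkD x hx) (huD x hx)) (hmD x hx)) (by
        intro M' hM'
        by_cases hne : M' = M
        · rw [hne, Pi.add_apply, Pi.add_apply, hkMD, hmM, hut M hM, add_zero, k_add_self]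
        · rw [Pi.add_apply, Pi.add_apply, hkt M' hM' hne, hmt M' hM' hne, hut M' hM', add_zero,
            add_zero])
    refine hns ⟨⟨e, heW⟩, fun w => (k + pw D e M) w.1,
      ⟨_, L.add_mem hk hmL, hl1, rfl⟩, fun w => (k + u + pw D e M) w.1,
      ⟨_, L.add_mem (L.add_mem hk hu) hmL, hl2, rfl⟩, ?_, ?_, ?_, ?_⟩
    · funext w
      show k w.1 + pw D e M w.1 + (k w.1 + u w.1 + pw D e M w.1) = u w.1
      have : k w.1 + pw D e M w.1 + (k w.1 + u w.1 + pw D e M w.1)
          = (k w.1 + k w.1) + (pw D e M w.1 + pw D e M w.1) + u w.1 := by abel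
      rw [this, k_add_self, k_add_self, zero_add, zero_add]
    · show k e + pw D e M e = z
      rw [hke, hme, zero_add]
    · show k e + u e + pw D e M e = z
      rw [hke, hue, hme, zero_add, zero_add]
    · intro w hw
      have hwe : w.1 ≠ e := fun h0 => hw (Subtype.ext h0)
      show k w.1 + pw D e M w.1 = 0 ∨ k w.1 + u w.1 + pw D e M w.1 = 0
      rw [hmW w hwe, add_zero, add_zero]
      rcases hkle w with h1 | h1
      · exact Or.inl h1
      · right; rw [h1, k_add_self]

theorem map_subset {Q : Finset (Finset V)} {Y : Finset V}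
    (hY : ∀ v ∈ Y, v ∈ Set.range (Subtype.val : W Q → V)) :
    ∃ Y' : Finset (W Q), Y'.map (Function.Embedding.subtype _) = Y := by
  classical
  refine ⟨Finset.univ.filter fun w => w.1 ∈ Y, ?_⟩
  ext v
  simp only [Finset.mem_map, Finset.mem_filter, Finset.mem_univ, true_and,
    Function.Embedding.coe_subtype]
  constructor
  · rintro ⟨w, hw, rfl⟩
    exact hw
  · intro hv
    obtain ⟨w, rfl⟩ := hY v hv
    exact ⟨w, hv, rfl⟩

/-- **the side interface passes to the minors at the root** -/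
theorem rsides (hL : IsCode L) (hP : Parts L e D P) (hQ : Q ⊆ P)
    (hl : ∀ v, v ≠ e → (D v).1 = 1) (hh : ∀ M ∈ Q, h M ∈ M) (heW : ∀ M ∈ Q, e ∉ M)
    {S : (V → K) → Finset V → Prop} (hS : LSides L S) :
    RSides (N L D Q h) (⟨e, heW⟩ : W Q) (SB L D Q h e S) := by
  classical
  have hmm : ∀ (Y : Finset (W Q)) (w : W Q),
      w.1 ∈ Y.map (Function.Embedding.subtype _) ↔ w ∈ Y := by
    intro Y w
    rw [Finset.mem_map]
    constructor
    · rintro ⟨w', hw', h1⟩
      have : w' = w := Subtype.ext h1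
      rwa [← this]
    · intro hw
      exact ⟨w, hw, rfl⟩
  have hrY : ∀ (Y : Finset (W Q)) (v : V), v ∈ Y.map (Function.Embedding.subtype _) →
      v ∈ Set.range (Subtype.val : W Q → V) := by
    intro Y v hv
    obtain ⟨w, _, hw⟩ := Finset.mem_map.1 hv
    exact ⟨w, hw⟩
  refine ⟨?_, ?_, ?_, ?_, ?_⟩
  · rintro a Y ⟨u, hu, hus, rfl, hue, hSu, heY⟩ h1
    exact heY ((hmm Y ⟨e, heW⟩).2 h1)
  · rintro a Y ⟨u, hu, hus, rfl, hue, hSu, heY⟩ w hw
    exact hS.zero u _ hSu w.1 ((hmm Y w).2 hw)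
  · rintro a ⟨u, hu, hus, rfl⟩ haz hae ha0 hI
    have hue : u e = 0 := hae
    have huz : ZFree u := lift_zfree hP hQ hl hus haz
    have hu0 : u ≠ 0 := by
      rintro rfl
      exact ha0 rfl
    obtain ⟨Y, hSY, heY⟩ := hS.ex u hu huz hu0 e hue
    by_cases hns : ∃ g, Splits (N L D Q h) (fun w => u w.1) g
    · exact Or.inl hns
    · right
      have hYW := own_kept hL hP hQ hl hh heW hS hu hue hus hI hSY heY hns
      obtain ⟨Y', hY'⟩ := map_subset hYW
      refine ⟨Y', ?_, u, hu, hus, rfl, hue, hY'.symm ▸ hSY, hY'.symm ▸ heY⟩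
      rw [Finset.nonempty_iff_ne_empty]
      intro h0
      apply hns
      refine splits_N hL.iso hP hQ hl hh heW hus hue (hS.wc u hu huz hu0 ?_)
      rw [← hY', h0, Finset.map_empty] at hSY
      exact hSY
  · rintro a Y ⟨u, hu, hus, rfl, hue, hSu, heY⟩ b ⟨k, hk, hks, rfl⟩ hkle
    have hle := le_lift hP hQ hL.iso hl hh hu hue hus hks hkle
    obtain ⟨k', hk', h1, h2, h3⟩ := hS.part u _ hSu k hk hle
    refine ⟨fun w => k' w.1, ⟨k', hk', ?_, rfl⟩, ?_, ?_, ?_⟩
    · intro v hv
      by_cases huv : u v = 0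
      · rw [h2 v huv (fun h0 => hv (hrY Y v h0)), kf_zero_left]
      · rcases h3 v huv with h4 | h4
        · rw [h4, kf_zero_left]
        · rw [h4]; exact hus v hv
    · intro w hw
      exact h1 w.1 ((hmm Y w).2 hw)
    · intro w hw hwY
      exact h2 w.1 hw (fun h0 => hwY ((hmm Y w).1 h0))
    · intro w hw
      exact h3 w.1 hw
  · rintro a Y ⟨u, hu, hus, rfl, hue, hSu, heY⟩ hI b ⟨k, hk, hks, rfl⟩ hkz hk0 hIk hkle hkY
    have hle := le_lift hP hQ hL.iso hl hh hu hue hus hks hkle
    have hke : k e = 0 := by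
      have heY' : (⟨e, heW⟩ : W Q) ∉ Y := fun h0 => heY ((hmm Y ⟨e, heW⟩).2 h0)
      exact hkY ⟨e, heW⟩ hue heY'
    have hkz' : ZFree k := lift_zfree hP hQ hl hks hkz
    have hk0' : k ≠ 0 := by
      rintro rfl
      exact hk0 rfl
    -- `k` vanishes at the other zeros of `u`
    have hkY' : ∀ v, u v = 0 → v ∉ Y.map (Function.Embedding.subtype _) → k v = 0 := by
      obtain ⟨k', hk', h1, h2, h3⟩ := hS.part u _ hSu k hk hle
      have hks' : ∀ v, v ∉ Set.range (Subtype.val : W Q → V) → kf (k' v) (sg D Q h v) = 0 := by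
        intro v hv
        by_cases huv : u v = 0
        · rw [h2 v huv (fun h0 => hv (hrY Y v h0)), kf_zero_left]
        · rcases h3 v huv with h4 | h4
          · rw [h4, kf_zero_left]
          · rw [h4]; exact hus v hv
      have hk'e : k' e = 0 := h2 e hue heY
      have hd0 : ∀ w : W Q, (k + k') w.1 = 0 ∨ (k + k') w.1 = u w.1 := by
        intro w
        rw [Pi.add_apply]
        by_cases huw : u w.1 = 0
        · by_cases hwY : w ∈ Y
          · left; rw [h1 _ ((hmm Y w).2 hwY), k_add_self]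
          · left
            have e1 : k w.1 = 0 := hkY w huw hwY
            rw [e1, h2 _ huw (fun h0 => hwY ((hmm Y w).1 h0)), add_zero]
        · rcases hle _ huw with h4 | h4 <;> rcases h3 _ huw with h5 | h5
          · left; rw [h4, h5, add_zero]
          · right; rw [h4, h5, zero_add]
          · right; rw [h4, h5, add_zero]
          · left; rw [h4, h5, k_add_self]
      have hds : ∀ v, v ∉ Set.range (Subtype.val : W Q → V) → kf ((k + k') v) (sg D Q h v) = 0 := by
        intro v hv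
        rw [Pi.add_apply, kf_add_left, hks v hv, hks' v hv, add_zero]
      have hde : (k + k') e = 0 := by rw [Pi.add_apply, hke, hk'e, add_zero]
      rcases hI (fun w => (k + k') w.1) ⟨k + k', L.add_mem hk hk', hds, rfl⟩ hd0 with h4 | h4
      · have h5 : k + k' = 0 := lift_zero hL.iso hP hQ hl hh (L.add_mem hk hk') hde hds (by
          rintro x ⟨w, rfl⟩
          exact congrFun h4 w)
        intro v hv hvY
        have h6 : k v + k' v = 0 := congrFun h5 v
        rw [h2 v hv hvY, add_zero] at h6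
        exact h6
      · have h5 : k + k' + u = 0 := by
          refine lift_zero hL.iso hP hQ hl hh (L.add_mem (L.add_mem hk hk') hu) ?_ ?_ ?_
          · rw [Pi.add_apply, hde, hue, add_zero]
          · intro v hv
            rw [Pi.add_apply, kf_add_left, hds v hv, hus v hv, add_zero]
          · rintro x ⟨w, rfl⟩
            have h6 : (k + k') w.1 = u w.1 := congrFun h4 w
            rw [Pi.add_apply, h6, k_add_self]
        intro v hv hvY
        have h6 : k v + k' v + u v = 0 := congrFun h5 v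
        rw [h2 v hv hvY, hv, add_zero, add_zero] at h6
        exact h6
    obtain ⟨Y1, hY1, hSk⟩ := hS.mono u _ hSu (irr_lift hL.iso hP hQ hl hh hu hue hus hI) k hk hkz'
      hk0' hle hkY'
    obtain ⟨Y', hY'⟩ := map_subset (fun v hv => hrY Y v (hY1 hv))
    by_cases h0 : Y' = ∅
    · left
      refine splits_N hL.iso hP hQ hl hh heW hks hke (hS.wc k hk hkz' hk0' ?_)
      rw [← hY', h0, Finset.map_empty] at hSk
      exact hSk
    · right
      refine ⟨Y', ?_, Finset.nonempty_iff_ne_empty.2 h0, k, hk, hks, rfl, hke, hY'.symm ▸ hSk, ?_⟩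
      · intro w hw
        exact (hmm Y w).1 (hY1 (hY' ▸ (hmm Y' w).2 hw))
      · rw [hY']
        exact fun h1 => heY (hY1 h1)

end

end Pool.Agent.H73.P4
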